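import Pool.Agent.Helper53.KC.Goals

/-! Packet KC-EXT (project KC of helper53). -/

namespace Pool.Agent.Helper15.KC

open Finset Pool.Agent.Helper53.KC

theorem base_iff {n r : ℕ} (M : Matroid (Fin n)) (h : Rk r M) (B : Set (Fin n)) :
    M.IsBase B ↔ ∃ X : Finset (Fin n), (X : Set (Fin n)) = B ∧ X ∈ V n r ∧ X ∉ NB r M := by
  classical
  obtain ⟨hE, hr⟩ := h
  constructor
  · intro hB
    have hfin : B.Finite := Set.toFinite B
    refine ⟨hfin.toFinset, hfin.coe_toFinset, ?_, ?_⟩
    · have h1 : B.encard = (r : ℕ∞) := by rw [← hr]; exact hB.encard_eq_eRank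
      rw [hfin.encard_eq_coe_toFinset_card] at h1
      unfold V
      rw [mem_powersetCard]
      exact ⟨subset_univ _, by exact_mod_cast h1⟩
    · intro h2
      unfold NB at h2
      rw [mem_filter, hfin.coe_toFinset] at h2
      exact h2.2 hB.indep
  · rintro ⟨X, rfl, hX, hX2⟩
    have hind : M.Indep (X : Set (Fin n)) := by
      by_contra h3
      apply hX2
      unfold NB
      rw [mem_filter]
      exact ⟨hX, h3⟩
    apply hind.isBase_of_eRk_ge (Set.toFinite _)
    rw [hind.eRk_eq_encard, hr, Set.encard_coe_eq_coe_finsetCard]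
    unfold V at hX
    rw [(mem_powersetCard.1 hX).2]

theorem ext : ExtStmt := by
  intro n r M M' hM hM' h
  apply Matroid.ext_isBase (by rw [hM.1, hM'.1])
  intro B _
  rw [base_iff M hM B, base_iff M' hM' B, h]

end Pool.Agent.Helper15.KC
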