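import Pool.Agent.Helper94.KC.Goals

/-!
Project KC, packet KL: Kempe equivalence in a quotient.
-/

set_option autoImplicit false

namespace Pool.Agent.Helper15.KC

open Pool.Agent.Helper94.KC
open scoped Classical
open Finset

theorem inChain_mem {V : Type} {G : SimpleGraph V} {f : V → Fin 5} {a b : Fin 5} {x y : V}
    (h : InChain G f a b x y) : f y = a ∨ f y = b := by
  obtain ⟨_, hy, _⟩ := h
  exact hy

theorem inChain_step {V : Type} {G : SimpleGraph V} {f : V → Fin 5} {a b : Fin 5} {x y z : V}
    (h : InChain G f a b x y) (hyz : G.Adj y z) (hz : f z = a ∨ f z = b) :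
    InChain G f a b x z := by
  obtain ⟨hx, hy, hr⟩ := h
  refine ⟨hx, hz, hr.trans ?_⟩
  apply SimpleGraph.Adj.reachable
  exact hyz

theorem kl (hUN : StmtUN) : StmtKL := by
  intro V _ G r f g h
  induction h with
  | refl => exact Relation.ReflTransGen.refl
  | @tail f' g' h1 h2 ih =>
    refine ih.trans ?_
    obtain ⟨a, b, x, hx, hy⟩ := h2
    have key := hUN V G (f' ∘ r) a b (univ.filter (fun v => InChain (QG G r) f' a b x (r v)))
      (by
        intro v hv
        rw [mem_filter] at hv
        have h5 := inChain_mem hv.2
        exact h5)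
      (by
        intro u hu v huv hv
        rw [mem_filter] at hu ⊢
        refine ⟨mem_univ _, ?_⟩
        by_cases hr : r u = r v
        · rw [← hr]; exact hu.2
        · exact inChain_step hu.2 (show (QG G r).Adj (r u) (r v) from ⟨hr, u, v, rfl, rfl, huv⟩) hv)
    have h3 : (fun y => if y ∈ univ.filter (fun v => InChain (QG G r) f' a b x (r v)) then
        Equiv.swap a b ((f' ∘ r) y) else (f' ∘ r) y) = g' ∘ r := by
      funext y
      by_cases hc : InChain (QG G r) f' a b x (r y)
      · have hm : y ∈ univ.filter (fun v => InChain (QG G r) f' a b x (r v)) := by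
          rw [mem_filter]
          exact ⟨mem_univ _, hc⟩
        simp only [hm, if_true]
        exact ((hy (r y)).1 hc).symm
      · have hm : y ∉ univ.filter (fun v => InChain (QG G r) f' a b x (r v)) := by
          rw [mem_filter]
          exact fun h6 => hc h6.2
        simp only [hm, if_false]
        exact ((hy (r y)).2 hc).symm
    rw [h3] at key
    exact key

end Pool.Agent.Helper15.KC
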