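import Pool.Agent.Helper94.KC.GoalsC

/-!
Project KC, packet XN: a stuck set has negative Euler characteristic.
-/

set_option autoImplicit false

namespace Pool.Agent.Helper15.KC

open Pool.Agent.Helper94.KC
open scoped Classical
open Finset

theorem bnd {V : Type} {G : SimpleGraph V} {a b : V} (h : G.Reachable a b) (S : Set V)
    (ha : a ∈ S) (hb : b ∉ S) : ∃ c d, G.Adj c d ∧ c ∈ S ∧ d ∉ S := by
  obtain ⟨w⟩ := h
  obtain ⟨e, _, h1, h2⟩ := w.exists_boundary_dart S ha hb
  exact ⟨e.fst, e.snd, e.adj, h1, h2⟩

theorem tri_eq {V : Type} {T : Finset (Finset V)} (hc : ∀ t ∈ T, t.card = 3) {x u w : V}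
    (h : (lk T x).Adj u w) : ({x, u, w} : Finset V) ∈ T := by
  obtain ⟨h1, h2, h3, t, ht, hx, hu, hw⟩ := h
  have hsub : ({x, u, w} : Finset V) ⊆ t := by
    intro y hy
    simp only [mem_insert, mem_singleton] at hy
    rcases hy with rfl | rfl | rfl <;> assumption
  have hcard : ({x, u, w} : Finset V).card = 3 := by
    rw [card_insert_of_notMem, card_pair h1]
    simp only [mem_insert, mem_singleton, not_or]
    exact ⟨h2.symm, h3.symm⟩
  have := Finset.eq_of_subset_of_card_le hsub (by rw [hc t ht, hcard])
  rw [this]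
  exact ht

theorem xn (hCN : StmtCN) (hL1 : StmtL1) : StmtXN := by
  intro V _ T hS h6 W hne huniv h5
  obtain ⟨la, lb, lc⟩ := hL1 V T hS
  have hb : ∀ x ∈ W, ∀ u, u ∉ W → (sk T).Adj x u →
      ∃ c d, (lk T x).Adj c d ∧ c ∉ W ∧ d ∈ W := by
    intro x hx u hu hxu
    have hpos : 0 < dR (sk T) W x := by have := h5 x hx; omega
    obtain ⟨w, hw⟩ := Finset.card_pos.mp hpos
    rw [mem_filter] at hw
    obtain ⟨c, d, hcd, hc, hd⟩ := bnd (hS.link x u w hxu hw.2) {v | v ∉ W} hu
      (by simpa using hw.1)
    exact ⟨c, d, hcd, hc, by simpa using hd⟩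
  -- the bound at one vertex
  have hx1 : ∀ x ∈ W, ((((T.filter (fun t => (t ∩ W).card = 1)).filter (fun t => x ∈ t)).card :
      ℕ) : ℤ) ≤ (dg T x : ℤ) - 6 := by
    intro x hx
    set R : Finset V := (univ \ W).filter (fun y => (sk T).Adj x y) with hR
    have hRm : ∀ y, y ∈ R ↔ y ∉ W ∧ (sk T).Adj x y := by
      intro y
      simp [hR]
    set T1 := (T.filter (fun t => (t ∩ W).card = 1)).filter (fun t => x ∈ t) with hT1
    set P := (R ×ˢ R).filter (fun q => (lk T x).Adj q.1 q.2) with hP
    set Q := (R ×ˢ (univ \ R)).filter (fun q => (lk T x).Adj q.1 q.2) with hQ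
    -- degrees
    have hdeg : R.card + dR (sk T) W x = dg T x := by
      have h1 : R.card = ((univ \ W).filter (fun y => (sk T).Adj x y)).card := rfl
      have h2 : Disjoint ((univ \ W).filter (fun y => (sk T).Adj x y))
          (W.filter (fun y => (sk T).Adj x y)) := by
        rw [Finset.disjoint_left]
        intro y hy hy'
        rw [mem_filter, mem_sdiff] at hy
        rw [mem_filter] at hy'
        exact hy.1.2 hy'.1
      unfold dR dg dR
      rw [h1, ← card_union_of_disjoint h2]
      congr 1
      ext y
      simp only [mem_union, mem_filter, mem_sdiff, mem_univ, true_and]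
      constructor
      · rintro (h | h)
        · exact h.2
        · exact h.2
      · intro h
        by_cases hy : y ∈ W
        · exact Or.inr ⟨hy, h⟩
        · exact Or.inl ⟨hy, h⟩
    -- pairs
    have hPQ : P.card + Q.card = 2 * R.card := by
      have h2 : Disjoint P Q := by
        rw [Finset.disjoint_left]
        intro q hq hq'
        rw [hP, mem_filter, mem_product] at hq
        rw [hQ, mem_filter, mem_product, mem_sdiff] at hq'
        exact hq'.1.2.2 hq.1.2
      rw [← card_union_of_disjoint h2]
      have h3 : P ∪ Q = (R ×ˢ (univ : Finset V)).filter (fun q => (lk T x).Adj q.1 q.2) := by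
        ext q
        simp only [hP, hQ, mem_union, mem_filter, mem_product, mem_sdiff, mem_univ, true_and,
          and_true]
        constructor
        · rintro (h | h)
          · exact ⟨h.1.1, h.2⟩
          · exact ⟨h.1.1, h.2⟩
        · intro h
          by_cases hy : q.2 ∈ R
          · exact Or.inl ⟨⟨h.1, hy⟩, h.2⟩
          · exact Or.inr ⟨⟨h.1, hy⟩, h.2⟩
      rw [h3, card_filter, sum_product]
      have h4 : ∀ u ∈ R, ∑ w : V, (if (lk T x).Adj (u, w).1 (u, w).2 then 1 else 0) = 2 := by
        intro u hu
        have h5 := la x u ((hRm u).1 hu).2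
        unfold dR at h5
        rw [card_filter] at h5
        exact h5
      rw [sum_congr rfl h4, sum_const, smul_eq_mul, mul_comm]
    have hTP : 2 * T1.card ≤ P.card := by
      have hfib : ∀ t ∈ T1, 2 ≤ (P.filter (fun q => ({x, q.1, q.2} : Finset V) = t)).card := by
        intro t ht
        rw [hT1, mem_filter, mem_filter] at ht
        obtain ⟨⟨htT, ht1⟩, hxt⟩ := ht
        have hc3 := hS.card t htT
        have he : (t.erase x).card = 2 := by rw [card_erase_of_mem hxt, hc3]
        obtain ⟨u, w, huw, huw2⟩ := card_eq_two.mp he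
        have hu : u ∈ t.erase x := by rw [huw2]; simp
        have hw : w ∈ t.erase x := by rw [huw2]; simp
        rw [mem_erase] at hu hw
        have htx : t ∩ W = {x} := by
          obtain ⟨y, hy⟩ := card_eq_one.mp ht1
          have : x ∈ t ∩ W := mem_inter.mpr ⟨hxt, hx⟩
          rw [hy, mem_singleton] at this
          rw [hy, this]
        have huW : u ∉ W := by
          intro h
          have : u ∈ t ∩ W := mem_inter.mpr ⟨hu.2, h⟩
          rw [htx, mem_singleton] at this
          exact hu.1 this
        have hwW : w ∉ W := by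
          intro h
          have : w ∈ t ∩ W := mem_inter.mpr ⟨hw.2, h⟩
          rw [htx, mem_singleton] at this
          exact hw.1 this
        have hl1 : (lk T x).Adj u w := ⟨huw, hu.1, hw.1, t, htT, hxt, hu.2, hw.2⟩
        have hl2 : (lk T x).Adj w u := hl1.symm
        have hteq : ({x, u, w} : Finset V) = t := by
          rw [← insert_erase hxt, huw2]
        have huR : u ∈ R := (hRm u).2 ⟨huW, (lb x u w hl1).1⟩
        have hwR : w ∈ R := (hRm w).2 ⟨hwW, (lb x u w hl1).2.1⟩
        have hsub : ({(u, w), (w, u)} : Finset (V × V)) ⊆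
            P.filter (fun q => ({x, q.1, q.2} : Finset V) = t) := by
          intro q hq
          rw [mem_insert, mem_singleton] at hq
          rw [mem_filter, hP, mem_filter, mem_product]
          rcases hq with rfl | rfl
          · exact ⟨⟨⟨huR, hwR⟩, hl1⟩, hteq⟩
          · refine ⟨⟨⟨hwR, huR⟩, hl2⟩, ?_⟩
            change ({x, w, u} : Finset V) = t
            rw [← hteq, Finset.pair_comm]
        have hcard : ({(u, w), (w, u)} : Finset (V × V)).card = 2 := by
          apply card_pair
          intro h
          rw [Prod.mk.injEq] at h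
          exact huw h.1
        rw [← hcard]
        exact card_le_card hsub
      have h1 : ∑ t ∈ T1, (P.filter (fun q => ({x, q.1, q.2} : Finset V) = t)).card ≤ P.card := by
        rw [← card_biUnion]
        · apply card_le_card
          intro q hq
          rw [mem_biUnion] at hq
          obtain ⟨t, _, hq⟩ := hq
          exact (mem_filter.mp hq).1
        · intro t _ t' _ htt'
          rw [Function.onFun, Finset.disjoint_left]
          intro q hq hq'
          exact htt' ((mem_filter.mp hq).2.symm.trans (mem_filter.mp hq').2)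
      have h2 : T1.card • 2 ≤ ∑ t ∈ T1, (P.filter (fun q => ({x, q.1, q.2} : Finset V) = t)).card :=
        card_nsmul_le_sum _ _ _ hfib
      rw [smul_eq_mul, mul_comm] at h2
      exact h2.trans h1
    have h5x := h5 x hx
    have h6x := h6 x
    by_cases hR0 : R.card = 0
    · have : T1.card = 0 := by omega
      rw [this]
      have : (6 : ℤ) ≤ dg T x := by exact_mod_cast h6x
      push_cast
      linarith
    · -- there is a crossing pair
      have hRne : R.Nonempty := card_pos.mp (Nat.pos_of_ne_zero hR0)
      obtain ⟨u, hu⟩ := hRne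
      obtain ⟨c, d, hcd, hc, hd⟩ := hb x hx u ((hRm u).1 hu).1 ((hRm u).1 hu).2
      have hQm : (c, d) ∈ Q := by
        rw [hQ, mem_filter, mem_product, mem_sdiff]
        exact ⟨⟨(hRm c).2 ⟨hc, (lb x c d hcd).1⟩, mem_univ _, fun h => ((hRm d).1 h).1 hd⟩, hcd⟩
      have hQpos : 0 < Q.card := card_pos.mpr ⟨_, hQm⟩
      have hQeven : Even Q.card := lc x R fun y hy => ((hRm y).1 hy).2
      obtain ⟨m, hm⟩ := hQeven
      have : T1.card + 6 ≤ dg T x := by omega
      have h7 : ((T1.card + 6 : ℕ) : ℤ) ≤ dg T x := by exact_mod_cast this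
      push_cast at h7
      linarith
  have hsum : (tk T W 1 : ℤ) ≤ ∑ x ∈ W, ((dg T x : ℤ) - 6) := by
    have h1 : tk T W 1 = ∑ x ∈ W, ((T.filter (fun t => (t ∩ W).card = 1)).filter
        (fun t => x ∈ t)).card := by
      have h2 := Finset.sum_card_bipartiteAbove_eq_sum_card_bipartiteBelow
        (s := W) (t := T.filter (fun t => (t ∩ W).card = 1)) (fun x t => x ∈ t)
      unfold bipartiteAbove bipartiteBelow at h2
      rw [h2]
      unfold tk
      rw [card_eq_sum_ones]
      refine sum_congr rfl fun t ht => ?_
      rw [mem_filter] at ht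
      rw [← ht.2]
      congr 1
      ext y
      simp [and_comm]
    rw [h1]
    push_cast
    exact sum_le_sum hx1
  refine ⟨?_, hsum⟩
  -- there is a vertex of W with a neighbour outside W
  have h2pos : 0 < tk T W 2 := by
    obtain ⟨a, ha⟩ := hne
    have : ∃ b, b ∉ W := by
      by_contra h
      push Not at h
      exact huniv (eq_univ_iff_forall.mpr h)
    obtain ⟨b, hb'⟩ := this
    obtain ⟨x, u, hxu, hx, hu⟩ := bnd (hS.conn.preconnected a b) {v | v ∈ W} ha hb'
    obtain ⟨c, d, hcd, hc, hd⟩ := hb x hx u hu hxu
    have ht := tri_eq hS.card hcd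
    unfold tk
    rw [card_pos]
    refine ⟨{x, c, d}, mem_filter.mpr ⟨ht, ?_⟩⟩
    have h3 : ({x, c, d} : Finset V) ∩ W = {x, d} := by
      ext y
      simp only [mem_inter, mem_insert, mem_singleton]
      constructor
      · rintro ⟨rfl | rfl | rfl, h⟩
        · exact Or.inl rfl
        · exact absurd h hc
        · exact Or.inr rfl
      · rintro (rfl | rfl)
        · exact ⟨Or.inl rfl, hx⟩
        · exact ⟨Or.inr (Or.inr rfl), hd⟩
    rw [h3]
    apply card_pair
    exact hcd.2.2.1.symm
  have hcn := hCN V T hS W
  have h2' : (0 : ℤ) < tk T W 2 := by exact_mod_cast h2pos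
  linarith

end Pool.Agent.Helper15.KC
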